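import Pool.Agent.H79.TD.Stm6
import Pool.Agent.H22.TD.Bez

/-!
# Project SV (helper79), module BZ2: the bound of Bezout with tangent vectors
-/

set_option autoImplicit false

open MvPolynomial Module Pool.Agent.H77.TF Pool.Agent.H79.TD Pool.Agent.H22.TD

namespace Pool.Agent.H40.TD

variable {K : Type} [Field K]

/-- the derivative in the direction `t` -/
noncomputable def D (t : Fin 3 → K) (h : MvPolynomial (Fin 3) K) : MvPolynomial (Fin 3) K :=
  ∑ i, C (t i) * pderiv i h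

theorem D_mul (t : Fin 3 → K) (a b : MvPolynomial (Fin 3) K) :
    D t (a * b) = a * D t b + b * D t a := by
  unfold D
  rw [Finset.mul_sum, Finset.mul_sum, ← Finset.sum_add_distrib]
  refine Finset.sum_congr rfl fun i _ => ?_
  rw [Derivation.leibniz, smul_eq_mul, smul_eq_mul]
  ring

theorem D_add (t : Fin 3 → K) (a b : MvPolynomial (Fin 3) K) : D t (a + b) = D t a + D t b := by
  unfold D
  rw [← Finset.sum_add_distrib]
  refine Finset.sum_congr rfl fun i _ => ?_
  rw [map_add]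
  ring

theorem D_smul (t : Fin 3 → K) (c : K) (a : MvPolynomial (Fin 3) K) : D t (c • a) = c • D t a := by
  unfold D
  rw [Finset.smul_sum]
  refine Finset.sum_congr rfl fun i _ => ?_
  rw [Derivation.map_smul, mul_smul_comm]

theorem eval_D (t x : Fin 3 → K) (h : MvPolynomial (Fin 3) K) :
    eval x (D t h) = ∑ i, t i * eval x (pderiv i h) := by
  unfold D
  rw [map_sum]
  exact Finset.sum_congr rfl fun i _ => by rw [map_mul, eval_C]

theorem D_lin (t x a : Fin 3 → K) : eval x (D t (lin a)) = ∑ i, a i * t i := by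
  rw [eval_D]
  unfold lin
  simp only [Fin.sum_univ_three, map_add, Derivation.leibniz, smul_eq_mul, pderiv_C, pderiv_X,
    mul_zero, add_zero, eval_C, map_mul, Pi.single_apply]
  simp
  ring

theorem vanish2 {a s : Fin 3 → K} (has : ∑ i, a i * s i = 0) {h : MvPolynomial (Fin 3) K}
    (hd : lin a ^ 2 ∣ h) (t : Fin 3 → K) : eval s h = 0 ∧ eval s (D t h) = 0 := by
  obtain ⟨Q, rfl⟩ := hd
  have h1 : eval s (lin a) = 0 := by rw [eval_lin, has]
  refine ⟨by rw [map_mul, map_pow, h1]; ring, ?_⟩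
  rw [pow_two, D_mul, D_mul]
  simp only [map_add, map_mul, h1]
  ring

/-- values and derivatives of forms -/
noncomputable def ev2 (R : Finset (Fin 3 → K)) (t : R → Fin 3 → K) (e : ℕ) :
    homogeneousSubmodule (Fin 3) K e →ₗ[K] (R → K × K) where
  toFun f := fun r => (eval r.1 f.1, eval r.1 (D (t r) f.1))
  map_add' f g := by
    funext r
    ext
    · simp
    · simp [D_add]
  map_smul' c f := by
    funext r
    ext
    · simp
    · simp [D_smul]

theorem ev2_surj {R : Finset (Fin 3 → K)} (hR0 : ∀ x ∈ R, x ≠ 0)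
    (hR : ∀ x ∈ R, ∀ y ∈ R, ∀ c : K, x = c • y → x = y) (t : R → Fin 3 → K)
    (ht : ∀ r : R, ∀ c : K, t r ≠ c • r.1) (e : ℕ) (he : 2 * R.card ≤ e) :
    Function.Surjective (ev2 R t e) := by
  classical
  have hF : ∀ r : R, ∃ F G : homogeneousSubmodule (Fin 3) K e, eval r.1 F.1 ≠ 0 ∧
      eval r.1 G.1 = 0 ∧ eval r.1 (D (t r) G.1) ≠ 0 ∧
      ∀ s : R, s ≠ r → (eval s.1 F.1 = 0 ∧ eval s.1 (D (t s) F.1) = 0) ∧
        (eval s.1 G.1 = 0 ∧ eval s.1 (D (t s) G.1) = 0) := by
    intro r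
    have h1 : ∀ s : Fin 3 → K, ∃ a : Fin 3 → K, s ∈ R → s ≠ r.1 →
        ∑ i, a i * s i = 0 ∧ ∑ i, a i * r.1 i ≠ 0 := by
      intro s
      by_cases hs : s ∈ R ∧ s ≠ r.1
      · obtain ⟨a, ha⟩ := exists_sep r.1 s (hR0 s hs.1) fun c hc =>
          hs.2 (hR r.1 r.2 s hs.1 c hc).symm
        exact ⟨a, fun _ _ => ha⟩
      · exact ⟨0, fun h2 h3 => absurd ⟨h2, h3⟩ hs⟩
    choose a ha using h1
    obtain ⟨d, hd1, hd2⟩ := exists_sep (t r) r.1 (hR0 _ r.2) (ht r)
    obtain ⟨k, hk⟩ : ∃ k, r.1 k ≠ 0 := Function.ne_iff.1 (hR0 _ r.2)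
    obtain ⟨c, hc⟩ : ∃ c : Fin 3 → K, ∑ i, c i * r.1 i ≠ 0 := by
      refine ⟨Pi.single k 1, ?_⟩
      rw [Finset.sum_eq_single k]
      · rw [Pi.single_eq_same, one_mul]
        exact hk
      · intro j _ hj
        rw [Pi.single_eq_of_ne hj, zero_mul]
      · exact fun h => absurd (Finset.mem_univ _) h
    have hcard : (R.erase r.1).card + 1 = R.card := Finset.card_erase_add_one r.2
    obtain ⟨P, hP⟩ : ∃ P : MvPolynomial (Fin 3) K, P = ∏ s ∈ R.erase r.1, lin (a s) ^ 2 := ⟨_, rfl⟩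
    have hPh : P.IsHomogeneous (2 * (R.erase r.1).card) := by
      rw [hP]
      have h2 : (∏ s ∈ R.erase r.1, lin (a s) ^ 2).IsHomogeneous (∑ _s ∈ R.erase r.1, 2) :=
        IsHomogeneous.prod _ _ _ fun s _ => by
          have h3 := (H22.TF.lin_hom (a s)).pow 2
          rwa [one_mul] at h3
      rwa [Finset.sum_const, smul_eq_mul, mul_comm] at h2
    have hPr : eval r.1 P ≠ 0 := by
      rw [hP, map_prod]
      refine Finset.prod_ne_zero_iff.2 fun s hs => ?_
      rw [map_pow, eval_lin]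
      exact pow_ne_zero _ (ha s (Finset.mem_of_mem_erase hs) (Finset.ne_of_mem_erase hs)).2
    have hPs : ∀ s : R, s ≠ r → ∀ Q : MvPolynomial (Fin 3) K, lin (a s.1) ^ 2 ∣ P * Q := by
      intro s hs Q
      have hs' : s.1 ≠ r.1 := fun h => hs (Subtype.ext h)
      rw [hP]
      exact (Finset.dvd_prod_of_mem (fun s => lin (a s) ^ 2)
        (Finset.mem_erase.2 ⟨hs', s.2⟩)).mul_right Q
    obtain ⟨j, hj⟩ : ∃ j, e = 2 * (R.erase r.1).card + (j + 1) := ⟨e - 2 * (R.erase r.1).card - 1, by omega⟩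
    have hcr : eval r.1 (lin c) ≠ 0 := by rwa [eval_lin]
    refine ⟨⟨P * lin c ^ (j + 1), ?_⟩, ⟨P * (lin c ^ j * lin d), ?_⟩, ?_, ?_, ?_, ?_⟩
    · have h3 := hPh.mul ((H22.TF.lin_hom c).pow (j + 1))
      rw [one_mul, ← hj] at h3
      exact h3
    · have h3 := hPh.mul (((H22.TF.lin_hom c).pow j).mul (H22.TF.lin_hom d))
      rw [one_mul, ← hj] at h3
      exact h3
    · show eval r.1 (P * lin c ^ (j + 1)) ≠ 0
      rw [map_mul, map_pow]
      exact mul_ne_zero hPr (pow_ne_zero _ hcr)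
    · show eval r.1 (P * (lin c ^ j * lin d)) = 0
      rw [map_mul, map_mul, eval_lin d, hd1, mul_zero, mul_zero]
    · show eval r.1 (D (t r) (P * (lin c ^ j * lin d))) ≠ 0
      have e1 : eval r.1 (D (t r) (P * (lin c ^ j * lin d))) =
          eval r.1 P * eval r.1 (lin c) ^ j * ∑ i, d i * t r i := by
        rw [← mul_assoc, D_mul, map_add, map_mul, map_mul (eval r.1) (lin d), eval_lin d, hd1,
          zero_mul, add_zero, D_lin, map_mul, map_pow]
      rw [e1]
      exact mul_ne_zero (mul_ne_zero hPr (pow_ne_zero _ hcr)) hd2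
    · intro s hs
      have hs' : s.1 ≠ r.1 := fun h => hs (Subtype.ext h)
      have h4 := (ha s.1 s.2 hs').1
      exact ⟨vanish2 h4 (hPs s hs _) _, vanish2 h4 (hPs s hs _) _⟩
  choose F G hF1 hG0 hG1 hFG using hF
  intro y
  refine ⟨∑ r : R, (((y r).1 * (eval r.1 (F r).1)⁻¹) • F r +
    (((y r).2 - (y r).1 * (eval r.1 (F r).1)⁻¹ * eval r.1 (D (t r) (F r).1)) *
      (eval r.1 (D (t r) (G r).1))⁻¹) • G r), ?_⟩
  rw [map_sum]
  funext s
  rw [Finset.sum_apply, Finset.sum_eq_single s]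
  · rw [map_add, map_smul, map_smul, Pi.add_apply, Pi.smul_apply, Pi.smul_apply]
    have e1 : ev2 R t e (F s) s = (eval s.1 (F s).1, eval s.1 (D (t s) (F s).1)) := rfl
    have e2 : ev2 R t e (G s) s = (eval s.1 (G s).1, eval s.1 (D (t s) (G s).1)) := rfl
    rw [e1, e2, hG0]
    have h1 := hF1 s
    have h2 := hG1 s
    ext
    · simp only [Prod.smul_mk, Prod.mk_add_mk, smul_eq_mul, mul_zero, add_zero]
      field_simp
    · simp only [Prod.smul_mk, Prod.mk_add_mk, smul_eq_mul]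
      field_simp
      ring
  · intro r _ hr
    rw [map_add, map_smul, map_smul, Pi.add_apply, Pi.smul_apply, Pi.smul_apply]
    have e1 : ev2 R t e (F r) s = (eval s.1 (F r).1, eval s.1 (D (t s) (F r).1)) := rfl
    have e2 : ev2 R t e (G r) s = (eval s.1 (G r).1, eval s.1 (D (t s) (G r).1)) := rfl
    obtain ⟨⟨h1, h2⟩, h3, h4⟩ := hFG r s hr.symm
    rw [e1, e2, h1, h2, h3, h4]
    simp
  · exact fun h => absurd (Finset.mem_univ _) h

/-- **Module BZ2.** -/
theorem t_BZ2 (hDIM : S_DIM) : S_BZ2 := by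
  intro K _ α γ f g R hf hg hf0 hg0 hrel hR0 hR hx
  have hx' : ∀ r : R, ∃ t : Fin 3 → K, (∀ c : K, t ≠ c • r.1) ∧
      ∑ i, t i * eval r.1 (pderiv i f) = 0 ∧ ∑ i, t i * eval r.1 (pderiv i g) = 0 := by
    intro r
    obtain ⟨-, -, t, ht⟩ := hx r.1 r.2
    exact ⟨t, ht⟩
  choose t ht htf htg using hx'
  obtain ⟨N, hN⟩ : ∃ N, N = 2 * R.card := ⟨_, rfl⟩
  have hfin : ∀ e, Module.Finite K (homogeneousSubmodule (Fin 3) K e) := fun e => (hDIM K e).1
  have hdim : ∀ e, finrank K (homogeneousSubmodule (Fin 3) K e) = (e + 2).choose 2 :=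
    fun e => (hDIM K e).2
  have hs := ev2_surj hR0 hR t ht (α + γ + N) (by omega)
  have h1 := LinearMap.finrank_range_add_finrank_ker (ev2 R t (α + γ + N))
  rw [LinearMap.range_eq_top.2 hs, finrank_top, Module.finrank_pi_fintype, hdim] at h1
  simp only [Module.finrank_prod, Module.finrank_self, Finset.sum_const, Finset.card_univ,
    Fintype.card_coe, smul_eq_mul] at h1
  have h2 := LinearMap.finrank_range_add_finrank_ker (Ph f g α γ N hf hg)
  rw [Module.finrank_prod, hdim, hdim] at h2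
  have h3 : finrank K (LinearMap.ker (Ph f g α γ N hf hg)) ≤ (N + 2).choose 2 := by
    refine (Submodule.finrank_mono (ker_Ph hf hg hf0 hrel)).trans ?_
    rw [← hdim N]
    exact LinearMap.finrank_range_le _
  have h4 : finrank K (LinearMap.range (Ph f g α γ N hf hg)) ≤
      finrank K (LinearMap.ker (ev2 R t (α + γ + N))) := by
    refine Submodule.finrank_mono ?_
    rintro _ ⟨p, rfl⟩
    rw [LinearMap.mem_ker]
    funext r
    obtain ⟨hfr, hgr, -⟩ := hx r.1 r.2
    have h5 : eval r.1 (D (t r) f) = 0 := by rw [eval_D, htf r]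
    have h6 : eval r.1 (D (t r) g) = 0 := by rw [eval_D, htg r]
    ext
    · show eval r.1 (p.1.1 * f + p.2.1 * g) = 0
      rw [map_add, map_mul, map_mul, hfr, hgr]
      ring
    · show eval r.1 (D (t r) (p.1.1 * f + p.2.1 * g)) = 0
      rw [D_add, D_mul, D_mul]
      simp only [map_add, map_mul, hfr, hgr, h5, h6]
      ring
  have h5 := choose_id α γ N
  omega

end Pool.Agent.H40.TD
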