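import Pool.Agent.H79.TD.Stm4
import Pool.Agent.H49.CZ.Lft
import Pool.Agent.H53.CZ.Dsc
import Pool.Agent.H6.TD.Sac
import Pool.Agent.H71.TD.Trf

/-!
# Project EX (helper79), module DSC: descent of freeness along extensions of fields

From helper49's LFT (base change of the logarithmic fields) and helper53's DSC of project CZ.
-/

set_option autoImplicit false

open MvPolynomial Module Pool.Agent.H77.TF Pool.Agent.H77.GR Pool.Agent.H79.TD

namespace Pool.Agent.H40.TD

theorem simple_map {K L : Type} [Field K] [Field L] (f : K →+* L) {n : ℕ} {A : Fin n → Fin 3 → K}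
    (hA : Simple A) : Simple (mapA f A) := by
  refine ⟨fun i h => ?_, fun i j hij c h => ?_⟩
  · apply hA.1 i
    funext l
    have h1 : f (A i l) = 0 := congrFun h l
    exact (map_eq_zero f).1 h1
  · obtain ⟨l, hl⟩ := Function.ne_iff.1 (hA.1 j)
    have hl' : A j l ≠ 0 := hl
    have h1 : ∀ t, f (A i t) = c * f (A j t) := fun t => congrFun h t
    have hfl : f (A j l) ≠ 0 := (map_ne_zero f).2 hl'
    have hc : c = f (A i l / A j l) := by
      rw [map_div₀, h1 l, mul_div_assoc, div_self hfl, mul_one]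
    apply hA.2 i j hij (A i l / A j l)
    funext t
    apply f.injective
    rw [h1 t, hc, ← map_mul]
    rfl

theorem t_DSC : S_DSC := by
  intro K L _ _ f n A e hA hE
  have hA' := simple_map f hA
  have hsum : ∑ j, e j = n := Pool.Agent.H71.TD.sum_exp Pool.Agent.H6.TD.t_SAC hA' hE
  obtain ⟨AR, hAR⟩ : ∃ AR : Fin n → Fin 3 → (⊤ : Subring K),
      mapA (⊤ : Subring K).subtype AR = A := ⟨fun i j => ⟨A i j, Subring.mem_top _⟩, rfl⟩
  have hφ : mapA (f.comp (⊤ : Subring K).subtype) AR = mapA f A := by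
    rw [← hAR]
    rfl
  refine Pool.Agent.H53.CZ.t_DSC K n A e hA hsum ⊤ AR hAR L (f.comp (⊤ : Subring K).subtype) ?_ ?_
  · intro j v hv
    obtain ⟨F, hF⟩ := Pool.Agent.H49.CZ.t_LFT K n A (e j) hA.1
    exact hF ⊤ AR (fun x _ => Subring.mem_top x) hAR L _ v hv
  · rw [hφ]
    exact hE

end Pool.Agent.H40.TD
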